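import Pool.Agent.R287.MACb

open Pool.Agent.R287.MAC

namespace Pool.Agent.Results.MP_3119c3_an.NotModifiedAC

/-- There is an irreducible complex symmetric `3 × 3` matrix which is unitarily equivalent to a
truncated Toeplitz operator (it is the matrix of one in an orthonormal basis), but which is not the
matrix of any truncated Toeplitz operator in any modified Aleksandrov-Clark basis. -/
theorem result :
    ∃ M : Matrix (Fin 3) (Fin 3) ℂ,
      M.transpose = M ∧ Irred M ∧
      (∃ Θ b, IsBlaschke 3 Θ ∧ IsONB Θ b ∧ IsTTOMatrix Θ b M) ∧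
      ¬ ∃ Θ e, IsBlaschke 3 Θ ∧ IsModifiedAC Θ e ∧ IsTTOMatrix Θ e M := by
  refine ⟨M, ?_, M_irred, ⟨Th, bas, ⟨1, fun _ => 0, by simp, by simp, rfl⟩, isONB_bas,
    sym, opA, memLp_of_cont continuous_sym _, isTTO_opA, matrix_opA⟩, not_AC⟩
  ext i j
  fin_cases i <;> fin_cases j <;> rfl

end Pool.Agent.Results.MP_3119c3_an.NotModifiedAC
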